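import Mathlib
import Pool.Agent.H69.Cond

open Pool.Agent.H69.Cond SimpleGraph

namespace Pool.Agent.Results.MP_f5330b_al.NotGeometric

/-- Being condensed is not invariant under quasi-isometry. -/
theorem result : ∃ (G H : Type) (_ : Group G) (_ : Group H) (S : Set G) (T : Set H),
    S.Finite ∧ Subgroup.closure S = ⊤ ∧ T.Finite ∧ Subgroup.closure T = ⊤ ∧
    QuasiIsometric (mulCayley S) (mulCayley T) ∧ Condensed G ∧ ¬ Condensed H :=
  ⟨Gp lam, Gp 0, inferInstance, inferInstance, Set.range (gen lam), Set.range (gen 0),
    Set.finite_range _, gen_closure, Set.finite_range _, gen_closure, qi, cond, not_cond⟩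

end Pool.Agent.Results.MP_f5330b_al.NotGeometric
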